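import Mathlib

set_option autoImplicit false

namespace Pool.Agent.H.MP_23b8d1_al

open scoped commutatorElement

/-- The normal subsemigroup generated by `g`, conjugating by elements of `B`. -/
inductive InS {Γ : Type*} [Group Γ] (B : Set Γ) (g : Γ) : Γ → Prop
  | cj (x : Γ) : x ∈ B → InS B g (x * g * x⁻¹)
  | mul (a b : Γ) : InS B g a → InS B g b → InS B g (a * b)

/-- Subsemigroups invariant under conjugation by `B`. -/
structure NS {Γ : Type*} [Group Γ] (B P : Set Γ) : Prop where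
  mul : ∀ a ∈ P, ∀ b ∈ P, a * b ∈ P
  cj : ∀ x ∈ B, ∀ a ∈ P, x * a * x⁻¹ ∈ P

theorem NS.pow {Γ : Type*} [Group Γ] {B P : Set Γ} (h : NS B P) {a : Γ} (ha : a ∈ P) (n : ℕ) :
    a ^ (n + 1) ∈ P := by
  induction n with
  | zero => simpa using ha
  | succ n ih => rw [pow_succ]; exact h.mul _ ih _ ha

theorem InS.conj {Γ : Type*} [Group Γ] {g a : Γ} (h : InS Set.univ g a) (y : Γ) :
    InS Set.univ g (y * a * y⁻¹) := by
  induction h with
  | cj x _ => convert InS.cj (B := Set.univ) (g := g) (y * x) trivial using 1; group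
  | mul a b _ _ h1 h2 => convert InS.mul _ _ h1 h2 using 1; group

theorem InS.inv {Γ : Type*} [Group Γ] {B : Set Γ} {g a : Γ} (h : InS B g⁻¹ a) : InS B g a⁻¹ := by
  induction h with
  | cj x hx => convert InS.cj (B := B) (g := g) x hx using 1; group
  | mul a b _ _ h1 h2 => convert InS.mul _ _ h2 h1 using 1; group

/-- Ohnishi type criterion. -/
theorem ohnishi {Γ : Type*} [Group Γ] (h1 : ∀ g : Γ, g ≠ 1 → ¬ InS Set.univ g 1)
    (h2 : ∀ P : Set Γ, NS Set.univ P → ∀ g a b : Γ, g ≠ 1 → InS Set.univ g a → InS Set.univ g b →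
      a⁻¹ ∈ P → b ∈ P → (1 : Γ) ∈ P)
    (P0 : Set Γ) (hP0 : NS Set.univ P0) (h0 : (1 : Γ) ∉ P0) :
    ∃ P : Set Γ, NS Set.univ P ∧ (1 : Γ) ∉ P ∧ P0 ⊆ P ∧ ∀ g : Γ, g ≠ 1 → g ∈ P ∨ g⁻¹ ∈ P := by
  obtain ⟨P, hP, hmax⟩ := zorn_subset_nonempty {P : Set Γ | NS Set.univ P ∧ (1 : Γ) ∉ P}
    (fun c hc hch _ => by
      refine ⟨⋃₀ c, ⟨⟨?_, ?_⟩, ?_⟩, fun s hs => Set.subset_sUnion_of_mem hs⟩
      · rintro a ⟨s, hs, ha⟩ b ⟨t, ht, hb⟩
        rcases hch.total hs ht with h | h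
        · exact ⟨t, ht, (hc ht).1.mul _ (h ha) _ hb⟩
        · exact ⟨s, hs, (hc hs).1.mul _ ha _ (h hb)⟩
      · rintro x hx a ⟨s, hs, ha⟩
        exact ⟨s, hs, (hc hs).1.cj x hx a ha⟩
      · rintro ⟨s, hs, h⟩
        exact (hc hs).2 h) P0 ⟨hP0, h0⟩
  have key : ∀ g : Γ, g ≠ 1 → g ∉ P → ∃ a, InS Set.univ g a ∧ a⁻¹ ∈ P := by
    intro g hg hgP
    by_contra hne
    push Not at hne
    let Q : Set Γ := {y | y ∈ P ∨ InS Set.univ g y ∨ ∃ a p, InS Set.univ g a ∧ p ∈ P ∧ y = a * p}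
    have m := hmax.prop.1
    have hQ : NS Set.univ Q ∧ (1 : Γ) ∉ Q := by
      refine ⟨⟨?_, ?_⟩, ?_⟩
      · rintro u (hu | hu | ⟨a, p, ha, hp, rfl⟩) v (hv | hv | ⟨b, q, hb, hq, rfl⟩)
        · exact Or.inl (m.mul _ hu _ hv)
        · exact Or.inr (Or.inr ⟨v, _, hv, m.cj v⁻¹ trivial u hu, by group⟩)
        · exact Or.inr (Or.inr ⟨b, _, hb, m.mul _ (m.cj b⁻¹ trivial u hu) _ hq, by group⟩)
        · exact Or.inr (Or.inr ⟨u, v, hu, hv, rfl⟩)
        · exact Or.inr (Or.inl (InS.mul _ _ hu hv))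
        · exact Or.inr (Or.inr ⟨u * b, q, InS.mul _ _ hu hb, hq, by group⟩)
        · exact Or.inr (Or.inr ⟨a, _, ha, m.mul _ hp _ hv, by group⟩)
        · exact Or.inr (Or.inr ⟨a * v, _, InS.mul _ _ ha hv, m.cj v⁻¹ trivial p hp, by group⟩)
        · exact Or.inr (Or.inr ⟨a * b, _, InS.mul _ _ ha hb,
            m.mul _ (m.cj b⁻¹ trivial p hp) _ hq, by group⟩)
      · rintro x _ u (hu | hu | ⟨a, p, ha, hp, rfl⟩)
        · exact Or.inl (m.cj x trivial u hu)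
        · exact Or.inr (Or.inl (hu.conj x))
        · exact Or.inr (Or.inr ⟨_, _, ha.conj x, m.cj x trivial p hp, by group⟩)
      · rintro (h | h | ⟨a, p, ha, hp, e⟩)
        · exact hmax.prop.2 h
        · exact h1 g hg h
        · exact hne a ha (by rwa [inv_eq_of_mul_eq_one_right e.symm])
    have : Q ⊆ P := hmax.le_of_ge hQ fun y hy => Or.inl hy
    exact hgP (this (Or.inr (Or.inl (by simpa using InS.cj (B := Set.univ) (g := g) 1 trivial))))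
  refine ⟨P, hmax.prop.1, hmax.prop.2, hP, fun g hg => ?_⟩
  by_contra hne
  push Not at hne
  obtain ⟨a, ha, ha'⟩ := key g hg hne.1
  obtain ⟨b, hb, hb'⟩ := key g⁻¹ (by simpa using hg) hne.2
  exact hmax.prop.2 (h2 P hmax.prop.1 g a b⁻¹ hg ha hb.inv ha' hb')

theorem delta {Γ H : Type*} [Group Γ] [Group H] (c : ℕ → H →* Γ)
    (hc : ∀ i j, i < j → ∀ x y, Commute (c i x) (c j y)) (K : ℕ) :
    ∃ Δ : H →* Γ, (∀ B : Subgroup Γ, (∀ j ≤ K, ∀ x, c j x ∈ B) → ∀ x, Δ x ∈ B) ∧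
      ∀ (M : Set Γ), (∀ a ∈ M, ∀ b ∈ M, a * b ∈ M) → ∀ (x : H) (z : Γ) (s : ℕ),
        (∀ j y, Commute z (c j y)) → (∀ j, z * (c j x) ^ s ∈ M) → z ^ (K + 1) * (Δ x) ^ s ∈ M := by
  induction K with
  | zero => exact ⟨c 0, fun B h x => h 0 le_rfl x, fun M _ x z s _ h => by simpa using h 0⟩
  | succ K ih =>
    obtain ⟨Δ, h1, h2⟩ := ih
    have cm : ∀ x y, Commute (Δ x) (c (K + 1) y) := fun x y => by
      have := h1 (Subgroup.centralizer {c (K + 1) y}) (fun j hj x => by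
        rw [Subgroup.mem_centralizer_singleton_iff]
        exact hc j (K + 1) (by omega) x y) x
      rwa [Subgroup.mem_centralizer_singleton_iff] at this
    refine ⟨MonoidHom.mk' (fun x => Δ x * c (K + 1) x) fun x y => ?_, fun B h x => ?_,
      fun M hM x z s hz h => ?_⟩
    · rw [map_mul, map_mul, mul_assoc, mul_assoc, ← mul_assoc (Δ y), (cm y x).eq, mul_assoc]
    · exact B.mul_mem (h1 B (fun j hj => h j (by omega)) x) (h _ le_rfl x)
    · have cz : Commute (Δ x) z := by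
        have := h1 (Subgroup.centralizer {z}) (fun j hj x => by
          rw [Subgroup.mem_centralizer_singleton_iff]
          exact (hz j x).symm) x
        rwa [Subgroup.mem_centralizer_singleton_iff] at this
      have := hM _ (h2 M hM x z s hz h) _ (h (K + 1))
      convert this using 1
      show z ^ (K + 1 + 1) * (Δ x * c (K + 1) x) ^ s = _
      rw [(cm x x).mul_pow, pow_succ z (K + 1), mul_assoc, mul_assoc, ← mul_assoc (Δ x ^ s),
        (cz.pow_left s).eq, mul_assoc]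

theorem cost {Γ H : Type*} [Group Γ] [Group H] {B P : Set Γ} (hP : NS B P) (n : H)
    (hn : n ∈ commutator H) : ∃ s : ℕ, ∀ (φ : H →* Γ) (w : Γ), w ∈ P → (∀ x, Commute (φ x) w) →
      (∀ x y, ⁅φ x, φ y⁆ * w ^ 2 ∈ P) → φ n * w ^ s ∈ P := by
  rw [commutator_eq_closure] at hn
  induction hn using Subgroup.closure_induction'' with
  | one => exact ⟨1, fun φ w hw _ _ => by simpa using hw⟩
  | mem x hx =>
    obtain ⟨a, b, rfl⟩ := hx
    exact ⟨2, fun φ w _ _ h => by rw [map_commutatorElement]; exact h a b⟩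
  | inv_mem x hx =>
    obtain ⟨a, b, rfl⟩ := hx
    exact ⟨2, fun φ w _ _ h => by rw [commutatorElement_inv, map_commutatorElement]; exact h b a⟩
  | mul x y _ _ hx hy =>
    obtain ⟨s, hs⟩ := hx
    obtain ⟨t, ht⟩ := hy
    refine ⟨s + t, fun φ w hw h1 h2 => ?_⟩
    have := hP.mul _ (hs φ w hw h1 h2) _ (ht φ w hw h1 h2)
    convert this using 1
    rw [map_mul, pow_add, mul_assoc, mul_assoc, ← mul_assoc (w ^ s), ← ((h1 y).pow_right s).eq,
      mul_assoc]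

/-- Two families of elements dominating each other force `1 ∈ P`. -/
theorem swindle {Γ H : Type*} [Group Γ] [Group H] {B P : Set Γ} (hP : NS B P) (m m' : H)
    (hm : m ∈ commutator H) (hm' : m' ∈ commutator H) (c c' : ℕ → H →* Γ)
    (hc : ∀ i j, i < j → ∀ x y, Commute (c i x) (c j y))
    (hc' : ∀ i j, i < j → ∀ x y, Commute (c' i x) (c' j y))
    (U V : Subgroup Γ) (hU : ∀ j x, c j x ∈ U) (hV : ∀ j x, c' j x ∈ V)
    (hUV : ∀ u ∈ U, ∀ v ∈ V, Commute u v) (h1 : ∀ j, c j m ∈ P) (h1' : ∀ j, c' j m' ∈ P)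
    (h2 : ∀ j, ∀ a ∈ V, ∀ b ∈ V, ⁅a, b⁆ * (c j m) ^ 2 ∈ P)
    (h2' : ∀ j, ∀ a ∈ U, ∀ b ∈ U, ⁅a, b⁆ * (c' j m') ^ 2 ∈ P) : (1 : Γ) ∈ P := by
  obtain ⟨s, hs⟩ := cost hP m'⁻¹ (inv_mem hm')
  obtain ⟨t, ht⟩ := cost hP m⁻¹ (inv_mem hm)
  obtain ⟨Δ, d1, d2⟩ := delta c hc (s + t)
  obtain ⟨Δ', d1', d2'⟩ := delta c' hc' (s + t)
  have e1 := d1 U fun j _ => hU j
  have e1' := d1' V fun j _ => hV j
  have k1 := d2 P hP.mul m (Δ' m'⁻¹) s (fun j y => (hUV _ (hU j y) _ (e1' _)).symm) fun j =>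
    hs Δ' _ (h1 j) (fun x => (hUV _ (hU j m) _ (e1' x)).symm) fun x y => h2 j _ (e1' x) _ (e1' y)
  have k2 := d2' P hP.mul m' (Δ m⁻¹) t (fun j y => hUV _ (e1 _) _ (hV j y)) fun j =>
    ht Δ _ (h1' j) (fun x => hUV _ (e1 x) _ (hV j m')) fun x y => h2' j _ (e1 x) _ (e1 y)
  have k3 : Δ m ∈ P := by simpa using d2 P hP.mul m 1 1 (fun _ _ => Commute.one_left _) (by simpa)
  have k4 : Δ' m' ∈ P := by
    simpa using d2' P hP.mul m' 1 1 (fun _ _ => Commute.one_left _) (by simpa)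
  have cm : Commute (Δ m) (Δ' m') := hUV _ (e1 m) _ (e1' m')
  rw [map_inv] at k1 k2
  generalize Δ m = X at *
  generalize Δ' m' = Y at *
  have := hP.mul _ (hP.mul _ (hP.mul _ (hP.pow k4 s) _ k2) _ (hP.pow k3 t)) _ k1
  convert this using 1
  have c1 : Commute (X⁻¹ ^ (s + t + 1)) (Y ^ t) := (cm.inv_left.pow_left _).pow_right _
  have c2 : Commute (X⁻¹ ^ (s + t + 1) * X ^ (t + 1)) (Y⁻¹ ^ (s + t + 1)) :=
    ((cm.inv_left.pow_left _).mul_left (cm.pow_left _)).inv_right.pow_right _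
  calc (1 : Γ) = Y ^ (s + 1) * Y ^ t * Y⁻¹ ^ (s + t + 1) *
        (X⁻¹ ^ (s + t + 1) * X ^ (t + 1)) * X ^ s := by group
    _ = _ := by rw [c1.eq, mul_assoc (Y ^ (s + 1) * Y ^ t), ← c2.eq]; simp only [mul_assoc]

end Pool.Agent.H.MP_23b8d1_al
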