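import Pool.Agent.H.MP_23b8d1_al.A

set_option autoImplicit false

namespace Pool.Agent.H.MP_23b8d1_al

open scoped commutatorElement
open Filter Topology

/-- Order automorphisms of the real line. -/
abbrev Au := ℝ ≃o ℝ

/-- `f` is affine with slope `α` just right of `t`. -/
def RG (f : ℝ → ℝ) (t α : ℝ) : Prop := ∀ᶠ s in 𝓝[>] t, f s = f t + α * (s - t)

def PL (f : ℝ → ℝ) : Prop := ∀ t, ∃ α, RG f t α

theorem tend (g : Au) (t : ℝ) : Tendsto g (𝓝[>] t) (𝓝[>] (g t)) :=
  tendsto_nhdsWithin_iff.2 ⟨(g.continuous.tendsto t).mono_left nhdsWithin_le_nhds,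
    eventually_nhdsWithin_of_forall fun _ hs => g.strictMono hs⟩

theorem RG.mul {f g : Au} {t α β : ℝ} (hf : RG f (g t) α) (hg : RG g t β) :
    RG (f * g : Au) t (α * β) := by
  filter_upwards [(tend g t).eventually hf, hg] with s h1 h2
  show f (g s) = f (g t) + _
  rw [h1, h2]; ring

theorem RG.pos {f : Au} {t α : ℝ} (h : RG f t α) : 0 < α := by
  obtain ⟨s, h1, h2⟩ := (h.and self_mem_nhdsWithin).exists
  have h3 : f t < f s := f.strictMono h2
  have h4 : 0 < s - t := sub_pos.2 h2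
  by_contra k
  nlinarith

theorem RG.inv {f : Au} {t α : ℝ} (h : RG f t α) : RG (f⁻¹ : Au) (f t) α⁻¹ := by
  have hp := h.pos
  have e : (f⁻¹ : Au) (f t) = t := RelIso.inv_apply_self f t
  have := tend f⁻¹ (f t)
  rw [e] at this
  filter_upwards [this.eventually h] with s hs
  rw [e]
  have e' : f ((f⁻¹ : Au) s) = s := RelIso.apply_inv_self f s
  rw [e'] at hs
  field_simp
  linarith

theorem PL.aff (a b : ℝ) : PL fun t => a * t + b := fun t =>
  ⟨a, Eventually.of_forall fun s => by ring⟩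

theorem PL.neg {f : ℝ → ℝ} (h : PL f) : PL fun t => -f t := fun t => by
  obtain ⟨α, hα⟩ := h t
  exact ⟨-α, by filter_upwards [hα] with s hs; rw [hs]; ring⟩

theorem PL.max {f g : ℝ → ℝ} (hf : PL f) (hg : PL g) : PL fun t => max (f t) (g t) := fun t => by
  obtain ⟨α, hα⟩ := hf t
  obtain ⟨β, hβ⟩ := hg t
  have ev : ∀ u v a b : ℝ, u < v → ∀ᶠ s in 𝓝[>] t, u + a * (s - t) < v + b * (s - t) := by
    intro u v a b h
    refine Filter.Eventually.filter_mono nhdsWithin_le_nhds ?_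
    exact ContinuousAt.eventually_lt (f := fun s => u + a * (s - t)) (g := fun s => v + b * (s - t))
      (by fun_prop) (by fun_prop) (by simpa using h)
  rcases lt_trichotomy (f t) (g t) with h | h | h
  · refine ⟨β, ?_⟩
    filter_upwards [hα, hβ, ev _ _ α β h] with s h1 h2 h3
    rw [h1, h2, max_eq_right h3.le, max_eq_right h.le]
  · refine ⟨Max.max α β, ?_⟩
    filter_upwards [hα, hβ, self_mem_nhdsWithin] with s h1 h2 h3
    have h4 : 0 ≤ s - t := sub_nonneg.2 (le_of_lt h3)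
    rw [h1, h2, h, max_self, max_mul_of_nonneg _ _ h4, max_add_add_left]
  · refine ⟨α, ?_⟩
    filter_upwards [hα, hβ, ev _ _ β α h] with s h1 h2 h3
    rw [h1, h2, max_eq_left h3.le, max_eq_left h.le]

theorem PL.min {f g : ℝ → ℝ} (hf : PL f) (hg : PL g) : PL fun t => min (f t) (g t) := by
  have := (hf.neg.max hg.neg).neg
  simpa [max_neg_neg] using this

/-- Conjugation by the reflection. -/
def σ : Au →* Au := MonoidHom.mk'
  (fun f => ⟨(Equiv.neg ℝ).trans (f.toEquiv.trans (Equiv.neg ℝ)), by simp⟩)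
  (fun f g => by ext t; simp)

@[simp] theorem σ_apply (f : Au) (t : ℝ) : σ f t = -f (-t) := rfl

@[simp] theorem σσ (f : Au) : σ (σ f) = f := by ext t; simp

def FL (x : Au) (c : ℝ) : Prop := ∀ t, t ≤ c → x t = t
def FR (x : Au) (c : ℝ) : Prop := ∀ t, c ≤ t → x t = t

theorem FL.mono {x : Au} {c d : ℝ} (h : FL x c) (k : d ≤ c) : FL x d := fun t ht => h t (ht.trans k)
theorem FR.mono {x : Au} {c d : ℝ} (h : FR x c) (k : c ≤ d) : FR x d := fun t ht => h t (k.trans ht)
theorem FL.mul {x y : Au} {c : ℝ} (h : FL x c) (k : FL y c) : FL (x * y) c := fun t ht => by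
  show x (y t) = t
  rw [k t ht, h t ht]
theorem FR.mul {x y : Au} {c : ℝ} (h : FR x c) (k : FR y c) : FR (x * y) c := fun t ht => by
  show x (y t) = t
  rw [k t ht, h t ht]
theorem fix_inv {x : Au} {t : ℝ} (h : x t = t) : (x⁻¹ : Au) t = t := by
  conv_lhs => rw [← h]
  exact RelIso.inv_apply_self x t
theorem FL.inv {x : Au} {c : ℝ} (h : FL x c) : FL x⁻¹ c := fun t ht => fix_inv (h t ht)
theorem FR.inv {x : Au} {c : ℝ} (h : FR x c) : FR x⁻¹ c := fun t ht => fix_inv (h t ht)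
theorem FL.cj {x : Au} {c : ℝ} (h : FL x c) (y : Au) : FL (y * x * y⁻¹) (y c) := fun t ht => by
  show y (x ((y⁻¹ : Au) t)) = t
  rw [h _ (y.le_iff_le.1 (by rw [RelIso.apply_inv_self]; exact ht)), RelIso.apply_inv_self]
theorem FR.cj {x : Au} {c : ℝ} (h : FR x c) (y : Au) : FR (y * x * y⁻¹) (y c) := fun t ht => by
  show y (x ((y⁻¹ : Au) t)) = t
  rw [h _ (y.le_iff_le.1 (by rw [RelIso.apply_inv_self]; exact ht)), RelIso.apply_inv_self]
theorem FL.σ {x : Au} {c : ℝ} (h : FL x c) : FR (σ x) (-c) := fun t ht => by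
  rw [σ_apply, h _ (by linarith), neg_neg]
theorem FR.σ {x : Au} {c : ℝ} (h : FR x c) : FL (σ x) (-c) := fun t ht => by
  rw [σ_apply, h _ (by linarith), neg_neg]

theorem comm {x y : Au} {c : ℝ} (h : FR x c) (k : FL y c) : Commute x y := by
  ext t
  show x (y t) = y (x t)
  rcases le_total t c with ht | ht
  · rw [k t ht, k _ ((x.monotone ht).trans (h c le_rfl).le)]
  · rw [h t ht, h _ ((k c le_rfl).ge.trans (y.monotone ht))]

/-- Compactly supported piecewise linear homeomorphisms. -/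
def G0 : Subgroup Au where
  carrier := {f | (∃ R, FL f (-R) ∧ FR f R) ∧ PL f ∧ PL (σ f)}
  one_mem' := ⟨⟨0, fun _ _ => rfl, fun _ _ => rfl⟩,
    fun t => ⟨1, Eventually.of_forall fun s => by simp⟩,
    fun t => ⟨1, Eventually.of_forall fun s => by simp⟩⟩
  mul_mem' := by
    have k : ∀ f g : Au, PL f → PL g → PL (f * g : Au) := fun f g hf hg t => by
      obtain ⟨α, hα⟩ := hf (g t)
      obtain ⟨β, hβ⟩ := hg t
      exact ⟨_, hα.mul hβ⟩
    rintro f g ⟨⟨R, a1, a2⟩, a3, a4⟩ ⟨⟨R', b1, b2⟩, b3, b4⟩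
    refine ⟨⟨max R R', (a1.mono (by simp)).mul (b1.mono (by simp)),
      (a2.mono (by simp)).mul (b2.mono (by simp))⟩, k _ _ a3 b3, ?_⟩
    rw [map_mul]
    exact k _ _ a4 b4
  inv_mem' := by
    have k : ∀ f : Au, PL f → PL (f⁻¹ : Au) := fun f hf t => by
      obtain ⟨α, hα⟩ := hf ((f⁻¹ : Au) t)
      have := hα.inv
      rw [RelIso.apply_inv_self] at this
      exact ⟨_, this⟩
    rintro f ⟨⟨R, a1, a2⟩, a3, a4⟩
    refine ⟨⟨R, a1.inv, a2.inv⟩, k _ a3, ?_⟩
    rw [map_inv]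
    exact k _ a4

theorem σ_mem {f : Au} (h : f ∈ G0) : σ f ∈ G0 := by
  obtain ⟨⟨R, a1, a2⟩, a3, a4⟩ := h
  exact ⟨⟨R, a2.σ, by simpa using a1.σ⟩, a4, by rwa [σσ]⟩

theorem tent0 {p s s' q : ℝ} (h1 : p < s) (h2 : s ≤ s') (h3 : s' < q) :
    ∃ y ∈ G0, FL y p ∧ FR y q ∧ y s = s' := by
  set a := (s' - p) / (s - p) with ha
  set b := (q - s') / (q - s) with hb
  have a1 : 1 ≤ a := by rw [ha, le_div_iff₀ (by linarith)]; linarith
  have b1 : b ≤ 1 := by rw [hb, div_le_iff₀ (by linarith)]; linarith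
  have b0 : 0 < b := div_pos (by linarith) (by linarith)
  have as : a * (s - p) = s' - p := by rw [ha]; exact div_mul_cancel₀ _ (by linarith)
  have bs : b * (q - s) = q - s' := by rw [hb]; exact div_mul_cancel₀ _ (by linarith)
  let F : ℝ → ℝ := fun t => max (1 * t + 0) (min (a * t + (p - a * p)) (b * t + (q - b * q)))
  have hF : StrictMono F := fun u v huv =>
    max_lt_max (by linarith) (min_lt_min (by nlinarith) (by nlinarith))
  have l : ∀ t, t ≤ p → F t = t := fun t ht => by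
    refine (max_eq_left ((min_le_left _ _).trans (by nlinarith))).trans (by ring)
  have r : ∀ t, q ≤ t → F t = t := fun t ht => by
    refine (max_eq_left ((min_le_right _ _).trans (by nlinarith))).trans (by ring)
  have hs : Function.Surjective F := Continuous.surjective (by fun_prop)
    (tendsto_id.congr' (by filter_upwards [eventually_ge_atTop q] with t ht using (r t ht).symm))
    (tendsto_id.congr' (by filter_upwards [eventually_le_atBot p] with t ht using (l t ht).symm))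
  refine ⟨hF.orderIsoOfSurjective F hs, ⟨⟨max (-p) q, FL.mono (c := p) l ?_, FR.mono (c := q) r (by simp)⟩,
    (PL.aff _ _).max ((PL.aff _ _).min (PL.aff _ _)), ?_⟩, l, r, ?_⟩
  · have := le_max_left (-p) q
    linarith
  · have := ((PL.aff (-1) 0).max ((PL.aff (-a) (p - a * p)).min (PL.aff (-b) (q - b * q)))).neg
    convert this using 2 with t
    simp [F]
  · show F s = s'
    have e1 : a * s + (p - a * p) = s' := by linarith
    have e2 : b * s + (q - b * q) = s' := by linarith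
    simp only [F]
    rw [e1, e2, min_self, max_eq_right (by linarith)]

theorem tent {p s s' q : ℝ} (h1 : p < s) (h2 : s < q) (h3 : p < s') (h4 : s' < q) :
    ∃ y ∈ G0, FL y p ∧ FR y q ∧ y s = s' := by
  rcases le_total s s' with h | h
  · exact tent0 h1 h h4
  · obtain ⟨y, a, b, c, d⟩ := tent0 h3 h h2
    exact ⟨y⁻¹, inv_mem a, b.inv, c.inv, by rw [← d]; exact RelIso.inv_apply_self y s'⟩

theorem shrink {u v e p q : ℝ} (h1 : v < e) (h2 : p < q) (h3 : q ≤ e) :
    ∃ y ∈ G0, FR y e ∧ p ≤ y u ∧ y v ≤ q := by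
  have a1 := min_le_left v p
  have a2 := min_le_right v p
  obtain ⟨y, y1, _, y3, y4⟩ := tent (p := min v p - 1) (s := v) (s' := (p + q) / 2) (q := e)
    (by linarith) h1 (by linarith) (by linarith)
  have b1 := min_le_left u (v - 1)
  have b2 := min_le_right u (v - 1)
  have b3 : y (min u (v - 1)) < y v := y.strictMono (by linarith)
  have c1 := min_le_left (y (min u (v - 1))) p
  have c2 := min_le_right (y (min u (v - 1))) p
  obtain ⟨z, z1, _, z3, z4⟩ := tent (p := min (y (min u (v - 1))) p - 1) (s := y (min u (v - 1)))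
    (s' := p) (q := (p + q) / 2) (by linarith) (by linarith) (by linarith) (by linarith)
  refine ⟨z * y, mul_mem z1 y1, (z3.mono (by linarith)).mul y3, ?_, ?_⟩
  · rw [← z4]
    exact (z * y).monotone b1
  · show z (y v) ≤ q
    rw [y4, z3 _ le_rfl]
    linarith

theorem shrink' (u v : ℝ) {p q : ℝ} (h2 : p < q) : ∃ y ∈ G0, p ≤ y u ∧ y v ≤ q := by
  obtain ⟨y, a, _, b⟩ := shrink (u := u) (v := v) (e := max (v + 1) q)
    (lt_of_lt_of_le (by linarith) (le_max_left _ _)) h2 (le_max_right _ _)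
  exact ⟨y, a, b⟩

theorem two {x a : Au} (hx : x ∈ G0) (ha : a ∈ G0) :
    ∃ R, FL x (-R) ∧ FR x R ∧ FL a (-R) ∧ FR a R := by
  obtain ⟨⟨R, a1, a2⟩, -⟩ := hx
  obtain ⟨⟨R', b1, b2⟩, -⟩ := ha
  exact ⟨max R R', a1.mono (by simp), a2.mono (by simp), b1.mono (by simp), b2.mono (by simp)⟩

theorem realize {x a : Au} (hx : x ∈ G0) (ha : a ∈ G0) :
    ∃ x' ∈ ⁅G0, G0⁆, x * a * x⁻¹ = x' * a * x'⁻¹ := by
  obtain ⟨R, a1, -, -, b2⟩ := two hx ha
  obtain ⟨z, hz, z1, -⟩ := shrink' (-R) 0 (p := R) (q := R + 1) (by linarith)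
  have := comm b2 ((a1.inv.cj z).mono z1)
  refine ⟨⁅x, z⁆, Subgroup.commutator_mem_commutator hx hz, ?_⟩
  calc x * a * x⁻¹ = x * (a * (z * x⁻¹ * z⁻¹)) * (z * x * z⁻¹ * x⁻¹) := by group
    _ = _ := by rw [this.eq, commutatorElement_def]; group

theorem disp {f : Au} {s : ℝ} (h : f s ≠ s) : ∃ p q, p < q ∧ (q = s ∨ q = f s) ∧
    ∀ a b : Au, FL a p → FR a q → FL b p → FR b q → Commute (f * a * f⁻¹) b := by
  rcases lt_or_gt_of_ne h with k | k
  · exact ⟨f s, s, k, Or.inl rfl, fun a b _ h2 h3 _ => comm (h2.cj f) h3⟩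
  · exact ⟨s, f s, k, Or.inr rfl, fun a b h1 _ _ h4 => (comm h4 (h1.cj f)).symm⟩

end Pool.Agent.H.MP_23b8d1_al
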