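import Pool.Agent.H.MP_23b8d1_al.B

set_option autoImplicit false

namespace Pool.Agent.H.MP_23b8d1_al

open scoped commutatorElement
open Filter Topology

/-- `f` is the identity up to `l` and has slope `α` right after. -/
def Lf (f : Au) (l α : ℝ) : Prop := FL f l ∧ RG f l α

theorem Lf.mul {f g : Au} {l α β : ℝ} (hf : Lf f l α) (hg : Lf g l β) : Lf (f * g) l (α * β) :=
  ⟨hf.1.mul hg.1, RG.mul (by rw [hg.1 l le_rfl]; exact hf.2) hg.2⟩

theorem Lf.inv {f : Au} {l α : ℝ} (hf : Lf f l α) : Lf f⁻¹ l α⁻¹ :=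
  ⟨hf.1.inv, by have := hf.2.inv; rwa [hf.1 l le_rfl] at this⟩

theorem Lf.pow {f : Au} {l α : ℝ} (hf : Lf f l α) (n : ℕ) : Lf (f ^ n) l (α ^ n) := by
  induction n with
  | zero => exact ⟨fun _ _ => rfl, Eventually.of_forall fun s => by simp⟩
  | succ n ih => rw [pow_succ, pow_succ]; exact ih.mul hf

theorem Lf.cj {f x : Au} {l α : ℝ} (hf : Lf f l α) (hx : x ∈ G0) : Lf (x * f * x⁻¹) (x l) α := by
  refine ⟨hf.1.cj x, ?_⟩
  obtain ⟨κ, hκ⟩ := hx.2.1 l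
  have h1 : RG (x * f : Au) l (κ * α) := RG.mul (by rw [hf.1 l le_rfl]; exact hκ) hf.2
  have h2 : RG (x * f * x⁻¹ : Au) (x l) (κ * α * κ⁻¹) :=
    RG.mul (by rw [RelIso.inv_apply_self]; exact h1) hκ.inv
  have := hκ.pos
  convert h2 using 1
  field_simp

theorem FL.lf {f : Au} {l l' : ℝ} (h : FL f l') (k : l < l') : Lf f l 1 := by
  refine ⟨h.mono k.le, ?_⟩
  filter_upwards [Ioo_mem_nhdsGT k] with s hs
  rw [h s hs.2.le, h l k.le]; ring

theorem Lf.ext {f : Au} {l : ℝ} (h : Lf f l 1) : ∃ e, l < e ∧ FL f e := by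
  obtain ⟨u, hu, hs⟩ := mem_nhdsGT_iff_exists_Ioc_subset.1 h.2
  refine ⟨u, hu, fun t ht => ?_⟩
  rcases le_or_gt t l with k | k
  · exact h.1 t k
  · have : f t = f l + 1 * (t - l) := hs ⟨k, ht⟩
    rw [this, h.1 l le_rfl]; ring

theorem exLf {g : Au} (hg : g ∈ G0) (h1 : g ≠ 1) : ∃ l α, α ≠ 1 ∧ Lf g l α := by
  obtain ⟨⟨R, a1, -⟩, a3, -⟩ := hg
  let S : Set ℝ := {t | g t ≠ t}
  have ne : S.Nonempty := by
    by_contra h
    refine h1 (RelIso.ext fun t => ?_)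
    by_contra k
    exact h ⟨t, k⟩
  have bd : BddBelow S := ⟨-R, fun t ht => by
    by_contra k
    exact ht (a1 t (le_of_lt (not_le.1 k)))⟩
  have lt : ∀ t, t < sInf S → g t = t := fun t ht => by
    by_contra k
    exact absurd (csInf_le bd k) (not_le.2 ht)
  have fl : FL g (sInf S) := fun t ht => by
    have : closure (Set.Iio (sInf S)) ⊆ {t | g t = t} :=
      closure_minimal lt (isClosed_eq g.continuous continuous_id)
    exact this (by rw [closure_Iio]; exact ht)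
  obtain ⟨α, hα⟩ := a3 (sInf S)
  refine ⟨_, α, fun e => ?_, fl, hα⟩
  subst e
  obtain ⟨e, he, hf⟩ := Lf.ext ⟨fl, hα⟩
  refine absurd (le_csInf ne fun t ht => ?_) (not_le.2 he)
  by_contra k
  exact ht (hf t (le_of_lt (not_le.1 k)))

theorem InS.lf {g a : Au} {l α : ℝ} (hg : Lf g l α) (h : InS G0 g a) :
    ∃ l' i, Lf a l' (α ^ (i + 1)) := by
  induction h with
  | cj x hx => exact ⟨_, 0, by simpa using hg.cj hx⟩
  | mul a b _ _ h1 h2 =>
    obtain ⟨l1, i, h1⟩ := h1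
    obtain ⟨l2, j, h2⟩ := h2
    rcases lt_trichotomy l1 l2 with k | rfl | k
    · exact ⟨l1, i, by simpa using h1.mul (h2.1.lf k)⟩
    · exact ⟨l1, i + j + 1, by convert h1.mul h2 using 1; ring⟩
    · exact ⟨l2, j, by simpa using (h1.1.lf k).mul h2⟩

theorem not_ins_one {g : Au} (hg : g ∈ G0) (h1 : g ≠ 1) : ¬ InS G0 g 1 := by
  intro h
  obtain ⟨l, α, hα, hl⟩ := exLf hg h1
  obtain ⟨l', i, k⟩ := h.lf hl
  obtain ⟨s, s1, s2⟩ := (k.2.and self_mem_nhdsWithin).exists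
  have s3 : s = l' + α ^ (i + 1) * (s - l') := s1
  have s4 : 0 < s - l' := sub_pos.2 s2
  have : α ^ (i + 1) = 1 := by
    have : (α ^ (i + 1) - 1) * (s - l') = 0 := by linarith
    rcases mul_eq_zero.1 this with k | k <;> linarith
  exact hα ((pow_eq_one_iff_of_nonneg hl.2.pos.le (by omega)).1 this)

/-- `m` dominates all commutators supported strictly left of `e`. -/
def Rd (P : Set Au) (m : Au) (e : ℝ) : Prop :=
  m ∈ P ∧ ∀ a ∈ G0, ∀ b ∈ G0, ∀ e', e' < e → FR a e' → FR b e' → ⁅a, b⁆ * m ^ 2 ∈ P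

theorem Rd.cj {P : Set Au} (hP : NS G0 P) {m y : Au} {e : ℝ} (h : Rd P m e) (hy : y ∈ G0) :
    Rd P (y * m * y⁻¹) (y e) := by
  refine ⟨hP.cj y hy m h.1, fun a ha b hb e' he' fa fb => ?_⟩
  have hy' : y⁻¹ ∈ G0 := inv_mem hy
  have := hP.cj y hy _ (h.2 _ (mul_mem (mul_mem hy' ha) (inv_mem hy')) _
    (mul_mem (mul_mem hy' hb) (inv_mem hy')) ((y⁻¹ : Au) e')
    (y.lt_iff_lt.1 (by rw [RelIso.apply_inv_self]; exact he')) (fa.cj y⁻¹) (fb.cj y⁻¹))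
  convert this using 1
  simp only [commutatorElement_def, pow_two]
  group

theorem exRd {P : Set Au} (hP : NS G0 P) (hPG : ∀ p ∈ P, p ∈ G0) {g a b : Au} (hg : g ∈ G0)
    (h1 : g ≠ 1) (ha : InS G0 g a) (hb : InS G0 g b) (ha' : a⁻¹ ∈ P) (hb' : b ∈ P) :
    ∃ m e, Rd P m e := by
  obtain ⟨l, α, hα, hl⟩ := exLf hg h1
  obtain ⟨l1, i, k1⟩ := ha.lf hl
  obtain ⟨l2, j, k2⟩ := hb.lf hl
  have c1 := min_le_left l1 l2
  have c2 := min_le_right l1 l2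
  have c3 := le_max_left l1 l2
  have c4 := le_max_right l1 l2
  obtain ⟨x, hx, -, -, hx'⟩ := tent (p := min l1 l2 - 1) (s := l1) (s' := l2) (q := max l1 l2 + 1)
    (by linarith) (by linarith) (by linarith) (by linarith)
  have k3 := (k1.cj hx).inv.pow (j + 1)
  have k4 := k2.pow (i + 1)
  rw [hx'] at k3
  have hf : b ^ (i + 1) ∈ P := hP.pow hb' i
  have hh : (x * a * x⁻¹)⁻¹ ^ (j + 1) ∈ P :=
    hP.pow (by convert hP.cj x hx _ ha' using 1; group) j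
  have α0 := hl.2.pos
  have μ1 : (α ^ (j + 1)) ^ (i + 1) ≠ 1 := fun e => hα (by
    rw [← pow_mul] at e
    exact (pow_eq_one_iff_of_nonneg α0.le (by positivity)).1 e)
  have k5 : Lf (b ^ (i + 1) * (x * a * x⁻¹)⁻¹ ^ (j + 1)) l2 1 := by
    convert k4.mul k3 using 1
    rw [inv_pow, ← pow_mul, ← pow_mul, mul_comm (i + 1), mul_inv_cancel₀ (by positivity)]
  generalize b ^ (i + 1) = f at *
  generalize (x * a * x⁻¹)⁻¹ ^ (j + 1) = h at *
  generalize (α ^ (j + 1)) ^ (i + 1) = μ at *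
  obtain ⟨e, he, hm⟩ := k5.ext
  have fl : f l2 = l2 := k4.1 l2 le_rfl
  have t1 : ∀ᶠ s in 𝓝[>] l2, s ∈ Set.Ioo l2 e := Ioo_mem_nhdsGT he
  have t0 : Tendsto f (𝓝[>] l2) (𝓝[>] l2) := by have := tend f l2; rwa [fl] at this
  obtain ⟨s, ⟨⟨s1, s2⟩, s3⟩, s4⟩ :=
    (((t1.and (t0.eventually t1)).and (t0.eventually (t0.eventually t1))).and k4.2).exists
  have ne : f s ≠ s := fun k => by
    rw [k, fl] at s4
    have : (μ - 1) * (s - l2) = 0 := by linarith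
    rcases mul_eq_zero.1 this with k | k
    · exact μ1 (by linarith)
    · linarith [s1.1]
  obtain ⟨p, q, pq, hq, hd⟩ := disp ne
  have q1 : q ≤ e := by rcases hq with rfl | rfl; exacts [s1.2.le, s2.2.le]
  have q2 : f q ≤ e := by rcases hq with rfl | rfl; exacts [s2.2.le, s3.2.le]
  have base : ∀ a0 ∈ G0, ∀ b0 ∈ G0, FL a0 p → FR a0 q → FL b0 p → FR b0 q →
      ⁅a0, b0⁆ * (f * h) ^ 2 ∈ P := by
    intro a0 ha0 b0 hb0 a1 a2 b1 b2
    have w1 := hd a0⁻¹ b0 a1.inv a2.inv b1 b2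
    have m1 : Commute a0 (f * h) := comm (a2.mono q1) hm
    have m2 : Commute b0 (f * h) := comm (b2.mono q1) hm
    have m3 : Commute (f * a0⁻¹ * f⁻¹) (f * h) := comm ((a2.inv.cj f).mono q2) hm
    have p1 : a0 * (f * a0⁻¹ * f⁻¹) * (f * h) ∈ P := by
      convert hP.mul _ (hP.cj a0 ha0 f hf) _ hh using 1; group
    have p2 : (a0 * (f * a0⁻¹ * f⁻¹))⁻¹ * (f * h) ∈ P := by
      have := hP.cj a0 ha0 _ (hP.mul _ (hP.cj a0⁻¹ (inv_mem ha0) f hf) _ hh)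
      convert this using 1
      calc (a0 * (f * a0⁻¹ * f⁻¹))⁻¹ * (f * h) = f * a0 * f⁻¹ * (a0⁻¹ * (f * h)) := by group
        _ = _ := by rw [m1.inv_left.eq]; group
    have := hP.mul _ p1 _ (hP.cj b0 hb0 _ p2)
    convert this using 1
    generalize f * h = m at *
    generalize f * a0⁻¹ * f⁻¹ = w at *
    have m4 : Commute (b0 * (a0 * w)⁻¹) m := m2.mul_left (m1.mul_left m3).inv_left
    calc ⁅a0, b0⁆ * m ^ 2 = a0 * (b0 * w) * w⁻¹ * a0⁻¹ * (b0⁻¹ * m ^ 2) := by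
          rw [commutatorElement_def]; group
      _ = a0 * w * (b0 * (a0 * w)⁻¹ * m) * m * b0⁻¹ := by
          rw [← w1.eq, (m2.inv_left.pow_right 2).eq, pow_two]; group
      _ = _ := by rw [m4.eq]; group
  refine ⟨f * h, e, hP.mul _ hf _ hh, fun a0 ha0 b0 hb0 e' he' a2 b2 => ?_⟩
  obtain ⟨R, a1, -, b1, -⟩ := two ha0 hb0
  obtain ⟨y, hy, y1, y2, y3⟩ := shrink (u := -R) he' pq q1
  have hy' : y⁻¹ ∈ G0 := inv_mem hy
  have := hP.cj y⁻¹ hy' _ (base _ (mul_mem (mul_mem hy ha0) hy') _ (mul_mem (mul_mem hy hb0) hy')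
    ((a1.cj y).mono y2) ((a2.cj y).mono y3) ((b1.cj y).mono y2) ((b2.cj y).mono y3))
  convert this using 1
  have m1 : Commute y ((f * h) ^ 2) := (comm y1 hm).pow_right 2
  generalize (f * h) ^ 2 = m at *
  simp only [commutatorElement_def]
  calc a0 * b0 * a0⁻¹ * b0⁻¹ * m = a0 * b0 * a0⁻¹ * b0⁻¹ * y⁻¹ * (y * m) := by group
    _ = _ := by rw [m1.eq]; group

theorem InS.σ {g a : Au} (h : InS G0 g a) : InS G0 (σ g) (σ a) := by
  induction h with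
  | cj x hx =>
    rw [map_mul, map_mul, map_inv]
    exact InS.cj _ (σ_mem hx)
  | mul a b _ _ h1 h2 =>
    rw [map_mul]
    exact InS.mul _ _ h1 h2

/-- Elements supported in an interval. -/
def HI (p q : ℝ) : Subgroup Au where
  carrier := {x | x ∈ G0 ∧ FL x p ∧ FR x q}
  one_mem' := ⟨one_mem _, fun _ _ => rfl, fun _ _ => rfl⟩
  mul_mem' := fun a b => ⟨mul_mem a.1 b.1, a.2.1.mul b.2.1, a.2.2.mul b.2.2⟩
  inv_mem' := fun a => ⟨inv_mem a.1, a.2.1.inv, a.2.2.inv⟩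

theorem HI_mono {R R' : ℝ} (h : R ≤ R') : HI (-R) R ≤ HI (-R') R' := fun _ hx =>
  ⟨hx.1, hx.2.1.mono (by linarith), hx.2.2.mono h⟩

theorem exHI {m : Au} (h : m ∈ ⁅G0, G0⁆) : ∃ R, m ∈ ⁅HI (-R) R, HI (-R) R⁆ := by
  rw [Subgroup.commutator_def] at h
  induction h using Subgroup.closure_induction with
  | mem x hx =>
    obtain ⟨a, ha, b, hb, rfl⟩ := hx
    obtain ⟨R, a1, a2, b1, b2⟩ := two ha hb
    exact ⟨R, Subgroup.commutator_mem_commutator ⟨ha, a1, a2⟩ ⟨hb, b1, b2⟩⟩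
  | one => exact ⟨0, one_mem _⟩
  | mul x y _ _ hx hy =>
    obtain ⟨R, hx⟩ := hx
    obtain ⟨R', hy⟩ := hy
    exact ⟨max R R', mul_mem
      (Subgroup.commutator_mono (HI_mono (le_max_left _ _)) (HI_mono (le_max_left _ _)) hx)
      (Subgroup.commutator_mono (HI_mono (le_max_right _ _)) (HI_mono (le_max_right _ _)) hy)⟩
  | inv x _ hx =>
    obtain ⟨R, hx⟩ := hx
    exact ⟨R, inv_mem hx⟩

theorem comm_le : ⁅G0, G0⁆ ≤ G0 := Subgroup.commutator_le_self G0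

theorem key {P : Set Au} (hP : NS G0 P) (hPG : ∀ p ∈ P, p ∈ ⁅G0, G0⁆) {g a b : Au} (hg : g ∈ G0)
    (h1 : g ≠ 1) (ha : InS G0 g a) (hb : InS G0 g b) (ha' : a⁻¹ ∈ P) (hb' : b ∈ P) :
    (1 : Au) ∈ P := by
  obtain ⟨m, e, hm⟩ := exRd hP (fun p hp => comm_le (hPG p hp)) hg h1 ha hb ha' hb'
  have hP' : NS G0 (σ ⁻¹' P) := ⟨fun a ha b hb => by
      show σ (a * b) ∈ P
      rw [map_mul]; exact hP.mul _ ha _ hb, fun x hx a ha => by
      show σ (x * a * x⁻¹) ∈ P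
      rw [map_mul, map_mul, map_inv]; exact hP.cj _ (σ_mem hx) _ ha⟩
  obtain ⟨m1, e1, hm1⟩ := exRd hP' (fun p hp => by
      have := σ_mem (comm_le (hPG _ hp)); rwa [σσ] at this) (σ_mem hg)
    (fun k => h1 (by rw [← σσ g, k, map_one])) ha.σ hb.σ
    (by show σ (σ a)⁻¹ ∈ P; rwa [map_inv, σσ]) (by show σ (σ b) ∈ P; rwa [σσ])
  obtain ⟨R1, r1⟩ := exHI (hPG _ hm.1)
  obtain ⟨R2, r2⟩ := exHI (hPG _ hm1.1)
  obtain ⟨R, b1, b2, b3, b4⟩ : ∃ R, R1 ≤ R ∧ R2 ≤ R ∧ -e ≤ R ∧ -e1 ≤ R :=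
    ⟨max (max R1 R2) (max (-e) (-e1)), by simp, by simp, by simp, by simp⟩
  have r1' := Subgroup.commutator_mono (HI_mono b1) (HI_mono b1) r1
  have r2' := Subgroup.commutator_mono (HI_mono b2) (HI_mono b2) r2
  rw [← Subgroup.map_subtype_commutator] at r1' r2'
  obtain ⟨n, hn, en⟩ := r1'
  obtain ⟨n', hn', en'⟩ := r2'
  have en : (n : Au) = m := en
  have en' : (n' : Au) = σ m1 := en'
  choose y hy y1 y2 using fun j : ℕ => shrink' (-R) R (p := j + 1) (q := j + 2) (by linarith)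
  let cj : Au → (HI (-R) R →* Au) := fun z => (MulAut.conj z).toMonoidHom.comp (HI (-R) R).subtype
  have cjv : ∀ z x, cj z x = z * x * z⁻¹ := fun _ _ => rfl
  have L : ∀ j (x : HI (-R) R), FL (cj (y j) x) (j + 1) := fun j x => (x.2.2.1.cj (y j)).mono (y1 j)
  have Rr : ∀ j (x : HI (-R) R), FR (cj (y j) x) (j + 2) := fun j x => (x.2.2.2.cj (y j)).mono (y2 j)
  have L' : ∀ j (x : HI (-R) R), FL (cj (σ (y j)) x) (-(j + 2)) := fun j x =>
    (x.2.2.1.cj (σ (y j))).mono (by rw [σ_apply, neg_neg]; linarith [y2 j])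
  have Rr' : ∀ j (x : HI (-R) R), FR (cj (σ (y j)) x) (-(j + 1)) := fun j x =>
    (x.2.2.2.cj (σ (y j))).mono (by rw [σ_apply]; linarith [y1 j])
  let U : Subgroup Au :=
    { carrier := {x | x ∈ G0 ∧ FL x 0}
      one_mem' := ⟨one_mem _, fun _ _ => rfl⟩
      mul_mem' := fun a b => ⟨mul_mem a.1 b.1, a.2.mul b.2⟩
      inv_mem' := fun a => ⟨inv_mem a.1, a.2.inv⟩ }
  let V : Subgroup Au :=
    { carrier := {x | x ∈ G0 ∧ FR x 0}
      one_mem' := ⟨one_mem _, fun _ _ => rfl⟩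
      mul_mem' := fun a b => ⟨mul_mem a.1 b.1, a.2.mul b.2⟩
      inv_mem' := fun a => ⟨inv_mem a.1, a.2.inv⟩ }
  have j0 : ∀ j : ℕ, (0 : ℝ) ≤ j := fun j => Nat.cast_nonneg j
  refine swindle hP n n' hn hn' (fun j => cj (y j)) (fun j => cj (σ (y j))) ?_ ?_ U V ?_ ?_ ?_ ?_ ?_ ?_ ?_
  · intro i j hij x z
    have : (i : ℝ) + 1 ≤ j := by exact_mod_cast hij
    exact comm (Rr i x) ((L j z).mono (by linarith))
  · intro i j hij x z
    have : (i : ℝ) + 1 ≤ j := by exact_mod_cast hij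
    exact (comm (Rr' j z) ((L' i x).mono (by linarith))).symm
  · intro j x
    exact ⟨mul_mem (mul_mem (hy j) x.2.1) (inv_mem (hy j)), (L j x).mono (by linarith [j0 j])⟩
  · intro j x
    exact ⟨mul_mem (mul_mem (σ_mem (hy j)) x.2.1) (inv_mem (σ_mem (hy j))),
      (Rr' j x).mono (by linarith [j0 j])⟩
  · intro u hu v hv
    exact (comm hv.2 hu.2).symm
  · intro j
    rw [cjv, en]
    exact hP.cj _ (hy j) _ hm.1
  · intro j
    rw [cjv, en']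
    exact hP.cj _ (σ_mem (hy j)) _ hm1.1
  · intro j u hu v hv
    rw [cjv, en]
    have : y j (-R) ≤ y j e := (y j).monotone (by linarith)
    exact (hm.cj hP (hy j)).2 u hu.1 v hv.1 0 (by linarith [y1 j, j0 j]) hu.2 hv.2
  · intro j u hu v hv
    rw [cjv, en']
    have : y j (-R) ≤ y j e1 := (y j).monotone (by linarith)
    have := (hm1.cj hP' (hy j)).2 _ (σ_mem hu.1) _ (σ_mem hv.1) (-0) (by linarith [y1 j, j0 j])
      hu.2.σ hv.2.σ
    have e : σ (⁅σ u, σ v⁆ * (y j * m1 * (y j)⁻¹) ^ 2) ∈ P := this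
    rwa [map_mul, map_commutatorElement, σσ, σσ, map_pow, map_mul, map_mul, map_inv] at e

theorem simple : IsSimpleGroup (⁅G0, G0⁆ : Subgroup Au) := by
  obtain ⟨f, hf, f1, f2, f3⟩ := tent (p := 0) (s := 1) (s' := 2) (q := 3) (by norm_num) (by norm_num)
    (by norm_num) (by norm_num)
  obtain ⟨z, hz, z1, -⟩ := shrink' 0 0 (p := 3) (q := 4) (by norm_num)
  have nt : Nontrivial (⁅G0, G0⁆ : Subgroup Au) := by
    refine ⟨⟨⟨⁅f, z⁆, Subgroup.commutator_mem_commutator hf hz⟩, 1, fun e => ?_⟩⟩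
    have e1 : ⁅f, z⁆ = 1 := congrArg Subtype.val e
    have e2 : f = z * f * z⁻¹ := by
      rw [← (commutatorElement_eq_one_iff_mul_comm.1 e1)]; group
    have := (f1.cj z).mono z1 1 (by norm_num)
    rw [← e2, f3] at this
    norm_num at this
  refine ⟨fun N hN => ?_⟩
  by_cases h : N = ⊥
  · exact Or.inl h
  right
  obtain ⟨⟨f, hfN⟩, hf1⟩ := (Subgroup.ne_bot_iff_exists_ne_one).1 h
  let N' := N.map (⁅G0, G0⁆ : Subgroup Au).subtype
  have cjN : ∀ x ∈ G0, ∀ a ∈ N', x * a * x⁻¹ ∈ N' := by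
    rintro x hx _ ⟨a, ha, rfl⟩
    obtain ⟨x', hx', e⟩ := realize hx (comm_le a.2)
    exact ⟨_, hN.conj_mem a ha ⟨x', hx'⟩, e.symm⟩
  have fN : (f : Au) ∈ N' := ⟨f, hfN, rfl⟩
  obtain ⟨s, hs⟩ : ∃ s, (f : Au) s ≠ s := by
    by_contra k
    push Not at k
    exact hf1 (Subtype.ext (Subtype.ext (RelIso.ext k)))
  obtain ⟨p, q, pq, -, hd⟩ := disp hs
  have all : ⁅G0, G0⁆ ≤ N' := by
    rw [Subgroup.commutator_le]
    intro a ha b hb
    obtain ⟨R, a1, a2, b1, b2⟩ := two ha hb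
    obtain ⟨y, hy, y1, y2⟩ := shrink' (-R) R pq
    have hy' : y⁻¹ ∈ G0 := inv_mem hy
    have ha0 := mul_mem (mul_mem hy ha) hy'
    have hb0 := mul_mem (mul_mem hy hb) hy'
    have w1 := hd _ _ ((a1.cj y).mono y1).inv ((a2.cj y).mono y2).inv ((b1.cj y).mono y1)
      ((b2.cj y).mono y2)
    have e : ⁅a, b⁆ = y⁻¹ * ⁅y * a * y⁻¹, y * b * y⁻¹⁆ * y⁻¹⁻¹ := by
      simp only [commutatorElement_def]; group
    rw [e]
    refine cjN _ hy' _ ?_
    generalize y * a * y⁻¹ = a0 at *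
    generalize y * b * y⁻¹ = b0 at *
    have c1 : a0 * ((f : Au) * a0⁻¹ * (f : Au)⁻¹) ∈ N' := by
      convert mul_mem (cjN a0 ha0 _ fN) (inv_mem fN) using 1; group
    have := mul_mem c1 (cjN b0 hb0 _ (inv_mem c1))
    convert this using 1
    generalize (f : Au) * a0⁻¹ * (f : Au)⁻¹ = w at *
    calc ⁅a0, b0⁆ = a0 * (b0 * w) * w⁻¹ * a0⁻¹ * b0⁻¹ := by rw [commutatorElement_def]; group
      _ = _ := by rw [← w1.eq]; group
  rw [eq_top_iff]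
  intro x _
  obtain ⟨x', hx', e⟩ := all x.2
  rwa [← Subtype.ext e]

theorem ins_coe {g a : (⁅G0, G0⁆ : Subgroup Au)} (h : InS Set.univ g a) : InS G0 (g : Au) (a : Au) := by
  induction h with
  | cj x _ => exact InS.cj _ (comm_le x.2)
  | mul a b _ _ h1 h2 => exact InS.mul _ _ h1 h2

theorem cones (P0 : Set (⁅G0, G0⁆ : Subgroup Au)) (hP0 : NS Set.univ P0) (h0 : 1 ∉ P0) :
    ∃ P : Set (⁅G0, G0⁆ : Subgroup Au), NS Set.univ P ∧ 1 ∉ P ∧ P0 ⊆ P ∧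
      ∀ g, g ≠ 1 → g ∈ P ∨ g⁻¹ ∈ P := by
  refine ohnishi (fun g hg h => not_ins_one (comm_le g.2) (fun e => hg (Subtype.ext e)) (ins_coe h))
    (fun P hP g a b hg ha hb ha' hb' => ?_) P0 hP0 h0
  have : (1 : Au) ∈ Subtype.val '' P := by
    refine key ⟨?_, ?_⟩ ?_ (comm_le g.2) (fun e => hg (Subtype.ext e)) (ins_coe ha) (ins_coe hb)
      ⟨_, ha', rfl⟩ ⟨_, hb', rfl⟩
    · rintro _ ⟨u, hu, rfl⟩ _ ⟨v, hv, rfl⟩
      exact ⟨_, hP.mul _ hu _ hv, rfl⟩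
    · rintro x hx _ ⟨u, hu, rfl⟩
      obtain ⟨x', hx', e⟩ := realize hx (comm_le u.2)
      exact ⟨_, hP.cj ⟨x', hx'⟩ trivial _ hu, e.symm⟩
    · rintro _ ⟨u, _, rfl⟩
      exact u.2
  obtain ⟨u, hu, e⟩ := this
  rwa [show u = 1 from Subtype.ext e] at hu

end Pool.Agent.H.MP_23b8d1_al
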